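import Pool.Agent.X186.IC.Short
import Pool.Agent.X186.IC.DegSum

set_option autoImplicit false

/-!
Cycle covers of total length at most 7/5 times the number of edges in all bridgeless graphs with
large degree sums of non-adjacent vertices.

A finite graph, loops and parallel edges allowed, has the vertex set `V` and the edge set `E`; the
ends of the edge `e` are `s e` and `t e`. The proof gives a map of the edges to the edges of the
Petersen graph such that the preimages of cycles are cycles, and averages over the images of a cycle
cover of length 21 of the Petersen graph under its 120 automorphisms.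
-/

open Finset

namespace Pool.Agent.Results.MP_95e9b3_co.DegreeSums

open Pool.Agent.X186.IC (LargeDegreeSums dic_deg n1_br)

/-- the set of edges `C` is even: all degrees are even, where a loop counts twice -/
def IsEven {V E : Type} [DecidableEq V] (s t : E → V) (C : Finset E) : Prop :=
  ∀ v, Even (∑ e ∈ C, ((if s e = v then 1 else 0) + (if t e = v then 1 else 0)))

/-- the edge set of a circuit (a cycle of the problem): a minimal nonempty even set of edges -/
def IsCircuit {V E : Type} [DecidableEq V] (s t : E → V) (C : Finset E) : Prop :=
  C.Nonempty ∧ IsEven s t C ∧ ∀ D ⊆ C, D.Nonempty → IsEven s t D → D = C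

/-- Let `G` be a finite graph such that no set of vertices is left by exactly one edge (no bridges).
Suppose that for some `r ≤ 4` and some `σ > 9 (r + 1)` every `r + 1` pairwise non-adjacent
vertices have numbers of neighbours with a sum of at least `σ`, and that the number `n` of vertices
satisfies `(r + 1) n < k (σ + r + 1)`, where `k = 17, 15, 12, 9, 5` for `r = 0, 1, 2, 3, 4`
(`LargeDegreeSums`). Then
(1) the edges are covered by circuits of total length at most 7/5 times the number of edges, and
(2) they are covered by four even subgraphs with this property. -/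
theorem result (V E : Type) [Fintype V] [DecidableEq V] [Fintype E] [DecidableEq E] (s t : E → V)
    (hbridge : ∀ Z : Finset V, (univ.filter fun e => ¬ (s e ∈ Z ↔ t e ∈ Z)).card ≠ 1)
    (h : LargeDegreeSums s t) :
    (∃ F : Multiset (Finset E), (∀ C ∈ F, IsCircuit s t C) ∧ (∀ e, ∃ C ∈ F, e ∈ C) ∧
      5 * (F.map Finset.card).sum ≤ 7 * Fintype.card E) ∧
    ∃ D : Fin 4 → Finset E, (∀ k, IsEven s t (D k)) ∧ (∀ e, ∃ k, e ∈ D k) ∧
      5 * ∑ k, (D k).card ≤ 7 * Fintype.card E :=
  ⟨Pool.Agent.X186.IC.short (dic_deg (n1_br hbridge) h),
    Pool.Agent.X186.IC.short4 (dic_deg (n1_br hbridge) h)⟩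

end Pool.Agent.Results.MP_95e9b3_co.DegreeSums
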