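import Pool.Agent.X186.IC.Short

set_option autoImplicit false

/-!
Cycle covers of total length at most 7/5 times the number of edges in all bridgeless graphs with few
light or few independent small odd cuts.

A finite graph, loops and parallel edges allowed, has the vertex set `V` and the edge set `E`; the
ends of the edge `e` are `s e` and `t e`. The proof gives a map of the edges to the edges of the
Petersen graph such that the preimages of cycles are cycles, and averages over the images of a cycle
cover of length 21 of the Petersen graph under its 120 automorphisms.
-/

open Finset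

namespace Pool.Agent.Results.MP_95e9b3_co.SmallOddCuts

open Pool.Agent.X42.FewCuts (NoLightFamily)
open Pool.Agent.X186.IC (IndependentSmallCuts dic_of n1_br)

/-- the set of edges `C` is even: all degrees are even, where a loop counts twice -/
def IsEven {V E : Type} [DecidableEq V] (s t : E → V) (C : Finset E) : Prop :=
  ∀ v, Even (∑ e ∈ C, ((if s e = v then 1 else 0) + (if t e = v then 1 else 0)))

/-- the edge set of a circuit (a cycle of the problem): a minimal nonempty even set of edges -/
def IsCircuit {V E : Type} [DecidableEq V] (s t : E → V) (C : Finset E) : Prop :=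
  C.Nonempty ∧ IsEven s t C ∧ ∀ D ⊆ C, D.Nonempty → IsEven s t D → D = C

/-- Let `G` be a finite graph such that no set of vertices is left by exactly one edge (no bridges).
Suppose that (A) for any `m ≥ 18` pairwise disjoint vertex sets with odd numbers of boundary edges
these numbers have a sum of more than `4 m - 6` (`NoLightFamily`), or (B) for some vertex set `U`
and some `a ≥ 3`, `c ≥ 1` with `4 a + |U| + ⌊6 / c⌋ ≤ 21` there are no `a + 1` pairwise disjoint and
pairwise non-adjacent vertex sets, all of them disjoint from `U`, each with an odd number, at most
`2 c + 1`, of boundary edges (`IndependentSmallCuts`). Then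
(1) the edges are covered by circuits of total length at most 7/5 times the number of edges, and
(2) they are covered by four even subgraphs with this property. -/
theorem result (V E : Type) [Fintype V] [DecidableEq V] [Fintype E] [DecidableEq E] (s t : E → V)
    (hbridge : ∀ Z : Finset V, (univ.filter fun e => ¬ (s e ∈ Z ↔ t e ∈ Z)).card ≠ 1)
    (h : NoLightFamily s t ∨ IndependentSmallCuts s t) :
    (∃ F : Multiset (Finset E), (∀ C ∈ F, IsCircuit s t C) ∧ (∀ e, ∃ C ∈ F, e ∈ C) ∧
      5 * (F.map Finset.card).sum ≤ 7 * Fintype.card E) ∧
    ∃ D : Fin 4 → Finset E, (∀ k, IsEven s t (D k)) ∧ (∀ e, ∃ k, e ∈ D k) ∧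
      5 * ∑ k, (D k).card ≤ 7 * Fintype.card E :=
  ⟨Pool.Agent.X186.IC.short (dic_of (n1_br hbridge) h),
    Pool.Agent.X186.IC.short4 (dic_of (n1_br hbridge) h)⟩

end Pool.Agent.Results.MP_95e9b3_co.SmallOddCuts
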